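import Pool.Agent.H7.KR.Gen

/-!
# Cliques of the largest size, the last residue: statements of the board `kr` (MP_fd41b2_co)

`b = p + 3 = ω - 1`, `q = p + 2`, `Δ = (p + 3) a + (p + 2)`, `D₁ = Δ - a = (p + 2) (a + 1)`,
`M = bal (p + 3) Δ = a (a + 1) ^ (p + 2)`. `G` has degrees `≤ Δ` and no clique with `p + 5` vertices.
THEOREM: `kc G univ (p + 4) * ((p + 4) a + p + 2) ≤ a * M * card V` for large `a`. Row `XXX` =
`def XXXStmt : Prop`; file `Pool/Agent/H<k>/KR/XXX.lean`, `import Pool.Agent.H7.KR.Stmts`, namespace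
`Pool.KR`, `open Pool.Agent.H23.KT Pool.Agent.H46.KW Pool.KQ`. A row that needs others takes them as
hypotheses (`theorem edg (h1 : PTWStmt) (h2 : LCQStmt) ... : EDGStmt`).

Rows of the board `kq` which are needed are hypotheses too: `BALStmt`, `BRKStmt`, `TRVStmt`
(`Pool/Agent/H7/KQ/Stmts.lean`, all proved) and `LOC3Stmt` (`Pool/Agent/H7/KR/Gen.lean`, proved).

Library: `Pool/Agent/H23/KT/{Base,Gen}.lean`, `Pool/Agent/H46/KW/{Bal,Zyk,Local}.lean` (`kc`, `clq`,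
`mem_clq`, `kc_eq`, `nb`, `mem_nb`, `CB`, `CB.mono`, `CB.nb`, `cn`, `mem_cn`, `nz`, `bal`, `bal_step`,
`bal_mono`, `bal_mul`, `bal_mul_self`, `zyk`, `zyk_real`, `zyk_real'`, `sum_facets`, `sum_card_cn`,
`not_all`, `parts_disj`, `parts_ind`, `sum_nz_le`, `sum_link`, `kc_succ`, `kc_mono`, `kc_le_choose`,
`kc_le_sum`, `clq_insert`, `clq_erase'`); definitions `gam`, `gw`, `sw`, `non`, `tot`, `un`, `trv`,
`Par`, `e1`, `Str` in `Pool/Agent/H7/KQ/Stmts.lean`.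
-/

set_option autoImplicit false

open Finset

namespace Pool.KR

open Pool.Agent.H23.KT Pool.Agent.H46.KW Pool.KQ

/-! ### Definitions -/

/-- The excess of `w` in `K`: the number of common neighbours of `K.erase w`, minus `a`, if
positive. -/
noncomputable def fp {V : Type} [Fintype V] [DecidableEq V] (G : SimpleGraph V) (a : ℕ)
    (K : Finset V) (w : V) : ℝ := max ((nz G univ K w : ℝ) - a) 0

/-- The total excess. -/
noncomputable def ff {V : Type} [Fintype V] [DecidableEq V] (G : SimpleGraph V) (a : ℕ)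
    (K : Finset V) : ℝ := ∑ w ∈ K, fp G a K w

/-- The share of `v` in the clique `K` with `p + 4` vertices; the shares add up to `p + 2`. -/
noncomputable def yy {V : Type} [Fintype V] [DecidableEq V] (G : SimpleGraph V) (p a : ℕ)
    (K : Finset V) (v : V) : ℝ :=
  if ff G a K ≤ (p : ℝ) + 2 then fp G a K v + ((p : ℝ) + 2 - ff G a K) / ((p : ℝ) + 4)
  else fp G a K v * (((p : ℝ) + 2) / ff G a K)

/-- The number of vertices of `W` with a number of neighbours in `S` different from `p + 1`. -/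
noncomputable def ze {V : Type} [DecidableEq V] (G : SimpleGraph V) (p : ℕ) (W S : Finset V) : ℕ :=
  (W.filter (fun z => (nb G S z).card ≠ p + 1)).card

/-- The local sum at `v`. -/
noncomputable def LS {V : Type} [Fintype V] [DecidableEq V] (G : SimpleGraph V) (p a : ℕ)
    (v : V) : ℝ :=
  ∑ L ∈ clq G (nb G univ v) (p + 3), ((a : ℝ) + yy G p a (insert v L) v)

/-- The part of the local sum which belongs to cliques `insert v (insert u S)` with `S` in `W`. -/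
noncomputable def ES {V : Type} [Fintype V] [DecidableEq V] (G : SimpleGraph V) (p a : ℕ)
    (v u : V) (W : Finset V) : ℝ :=
  ∑ S ∈ clq G W (p + 2), ((a : ℝ) + yy G p a (insert v (insert u S)) v)

/-- The common neighbours of `u` and `v`. -/
noncomputable def co {V : Type} [Fintype V] [DecidableEq V] (G : SimpleGraph V) (v u : V) :
    Finset V := nb G (nb G univ v) u

/-- The graphs of the theorem. -/
structure GG {V : Type} [Fintype V] [DecidableEq V] (G : SimpleGraph V) (p a : ℕ) : Prop where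
  cb : CB G univ (p + 4)
  deg : ∀ v, (nb G univ v).card ≤ (p + 3) * a + (p + 2)

/-! ### Shares -/

/-- (YSM) Shares: nonnegative, sum `p + 2` (so each is at most `p + 2`). PROOF. If `ff ≤ p + 2`:
`∑ = ff + (p + 4) * ((p + 2 - ff) / (p + 4))`. If `ff > p + 2`: `∑ = ff * ((p + 2) / ff)`. -/
def YSMStmt : Prop :=
  ∀ {V : Type} [Fintype V] [DecidableEq V] (G : SimpleGraph V) (p a : ℕ) (K : Finset V),
    K.card = p + 4 → (∀ v, 0 ≤ yy G p a K v) ∧ ∑ v ∈ K, yy G p a K v = p + 2 ∧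
      ∀ v ∈ K, yy G p a K v ≤ p + 2

/-- (ZSM) The parts of a clique with `p + 2` vertices. PROOF. For `z ∈ W` not all vertices of `S` are
neighbours of `z` (`not_all`; `CB G W (p + 2)`). `z ∈ cn G W (S.erase w)` for some `w ∈ S` iff
`(nb G S z).card = p + 1` (then `nb G S z = S.erase w`); these sets are disjoint (`parts_disj`). So
`∑_w nz = card {z ∈ W : (nb G S z).card = p + 1}` (`card_biUnion`), `nz G W S w = (cn G W (S.erase
w)).card`. -/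
def ZSMStmt : Prop :=
  ∀ {V : Type} [DecidableEq V] (G : SimpleGraph V) (p : ℕ) (W S : Finset V), CB G W (p + 2) →
    S ∈ clq G W (p + 2) → ∑ w ∈ S, nz G W S w + ze G p W S = W.card

/-- (PTW) The pointwise bound. Needs ZSM. Let `K = insert v (insert u S)`, `n = (co G v u).card`,
`m = W₀.card`, `D₁ = (p+2) (a+1)`, `g = max (D₁ - n) 0`.
PROOF. `K` is a clique with `p + 4` vertices (`u ∈ N(v)`, `S ⊆ N(v) ∩ N(u)`).
(1) `nz G univ K v ≤ a + D₁ - n`: a common neighbour `x` of `K.erase v = insert u S` is in `nb G univ u`,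
and not in `nb G univ v` (else `insert x K` is a clique with `p + 5` vertices); so the common
neighbours and `co G v u` are disjoint subsets of `nb G univ u`, which has `≤ Δ = a + D₁` elements.
Hence `fp G a K v ≤ g`.
(2) for `w ∈ S`: `cn G W₀ (S.erase w) ⊆ cn G univ (K.erase w)`, so by ZSM (`CB G W₀ (p+2)` from
`CB.nb` twice and `CB.mono`) `∑_(w ∈ S) nz G univ K w ≥ m - ζ`, `ζ = ze G p W₀ S`. As `fp ≥ nz - a`
and `fp ≥ 0`: `F = ff G a K ≥ fp v + m - ζ - (p+2) a` and `F ≥ fp v`.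
(3) Let `x = fp v ∈ [0, g]`. If `F > p + 2` then `yy ≤ x ≤ g`. If `F ≤ p + 2` then
`yy = x + (p + 2 - F) / (p + 4)`, `p + 2 - F ≤ X - x` with `X = D₁ - m + ζ` and also with
`X = p + 2`, and `X - x ≥ 0`; `x + (X - x) / (p + 4)` is increasing in `x`: if `X ≥ g` it is
`≤ g + (X - g) / (p + 4)`; if `X < g` then `x ≤ X` gives `≤ X ≤ g`. -/
def PTWStmt : Prop :=
  ∀ {V : Type} [Fintype V] [DecidableEq V] (G : SimpleGraph V) (p a : ℕ), GG G p a →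
    ∀ v, ∀ u ∈ nb G univ v, ∀ W₀ ⊆ co G v u, ∀ S ∈ clq G W₀ (p + 2),
    yy G p a (insert v (insert u S)) v ≤
      max (((p : ℝ) + 2) * (a + 1) - (co G v u).card) 0 +
        max (((p : ℝ) + 2) * (a + 1) - W₀.card + ze G p W₀ S -
          max (((p : ℝ) + 2) * (a + 1) - (co G v u).card) 0) 0 / ((p : ℝ) + 4) ∧
    yy G p a (insert v (insert u S)) v ≤
      max (((p : ℝ) + 2) * (a + 1) - (co G v u).card) 0 +
        max ((p : ℝ) + 2 - max (((p : ℝ) + 2) * (a + 1) - (co G v u).card) 0) 0 / ((p : ℝ) + 4)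

/-! ### The inequality for an edge -/

/-- (LCA) From the general local inequality (closed: `loc3_all`), `p ≥ 1`. PROOF. Write `p = p' + 1`:
LOC3 for `p'` and `r ≤ p' + 3`; take the maximum of the `a₀` for the finitely many `r`. For
`S ∈ clq G W (p' + 3)` and `z ∈ W`: `(nb G S z).card ≤ p' + 2` (`not_all`), so if it is not
`p + 1 = p' + 2` then `gw p' _` is `gam p'` or `1`, at least `gam p'`: `sw G p' W S ≥ gam p' * ζ`. And
`5 / 4 / (p + 4) ≤ gam p' = p / (2 (p + 1))` for `p ≥ 1` (`4 p ^ 2 + 6 p ≥ 10`). -/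
def LCAStmt : Prop :=
  ∀ p : ℕ, 1 ≤ p → ∃ a₀ : ℕ, ∀ r ≤ p + 2, ∀ a ≥ a₀, ∀ {V : Type} [DecidableEq V]
    (G : SimpleGraph V) (W : Finset V), CB G W (p + 2) → W.card ≤ (p + 2) * a + r →
    ∑ S ∈ clq G W (p + 2), min (r : ℝ)
      ((((p + 2) * a + r : ℕ) : ℝ) - W.card + 5 / 4 / ((p : ℝ) + 4) * ze G p W S) ≤
        a * ((bal (p + 2) ((p + 2) * a + r) : ℝ) - kc G W (p + 2))

/-- (LCB) The same for `p = 0`: triangle-free graphs. Needs ZSM, BAL (`bal_row`).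
PROOF. `n = W.card`, `e = kc G W 2`, `d x = (nb G W x).card`. ZSM and `sum_facets` (at `p = 1`;
`cn G W {x} = nb G W x`): `∑_S ζ(S) = n e - ∑_S ∑_(w ∈ S) nz = n e - ∑_(x ∈ W) (d x) ^ 2`, and
`∑_x d x = 2 e`. If `n = 2 h`: `∑ (d x - h) ^ 2 ≥ 0` gives `∑ d ^ 2 ≥ n (2 e - h ^ 2)`; if `n = 2 h + 1`:
`∑ (d x - h) (d x - h - 1) ≥ 0` (integers) gives `∑ d ^ 2 ≥ n (2 e - h (h + 1))`. In both cases
`∑ ζ ≤ n (bal 2 n - e)`, `bal 2 n = h ^ 2` or `h (h + 1)`. BAL (2):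
`(2 a + r - n) bal 2 n ≤ a (bal 2 (2a+r) - bal 2 n)`. So with `ε = bal 2 n - e ≥ 0` (`zyk`) the sum is
`≤ (2 a + r - n) e + (5/16) n ε = (2 a + r - n) bal 2 n + ε (5 n / 16 - (2 a + r - n)) ≤
a (bal 2 (2a+r) - bal 2 n) + ε a`, as `5 n / 16 ≤ 5 (2 a + 2) / 16 ≤ a` for `a ≥ 2`. -/
def LCBStmt : Prop :=
  ∀ r ≤ 2, ∀ a ≥ 2, ∀ {V : Type} [DecidableEq V] (G : SimpleGraph V) (W : Finset V),
    CB G W 2 → W.card ≤ 2 * a + r →
    ∑ S ∈ clq G W 2, min (r : ℝ)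
      (((2 * a + r : ℕ) : ℝ) - W.card + 5 / 16 * ze G 0 W S) ≤
        a * ((bal 2 (2 * a + r) : ℝ) - kc G W 2)

/-- (LCQ) Both (assembly: helper7). -/
def LCQStmt : Prop :=
  ∀ p : ℕ, ∃ a₀ : ℕ, ∀ r ≤ p + 2, ∀ a ≥ a₀, ∀ {V : Type} [DecidableEq V]
    (G : SimpleGraph V) (W : Finset V), CB G W (p + 2) → W.card ≤ (p + 2) * a + r →
    ∑ S ∈ clq G W (p + 2), min (r : ℝ)
      ((((p + 2) * a + r : ℕ) : ℝ) - W.card + 5 / 4 / ((p : ℝ) + 4) * ze G p W S) ≤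
        a * ((bal (p + 2) ((p + 2) * a + r) : ℝ) - kc G W (p + 2))

/-- (EDG) The inequality for an edge. Needs YSM, PTW, LCQ.
PROOF. `W = co G v u`, `n = W.card`, `CB G W (p+2)`, `D₁ = (p+2)(a+1)`, PTW with `W₀ = W`, `yy ≤ p + 2`.
Case `n ≤ D₁`: `g = D₁ - n`, `yy ≤ D₁ - n + ζ / (p+4)`, so `yy ≤ min (p+2) (D₁ - n + 5/4/(p+4) ζ)`: LCQ
with `r = p + 2` (`(p+2) a + (p+2) = D₁`): `∑ yy ≤ a (bal D₁ - kc)`.
Case `n > D₁`: `g = 0`, `yy ≤ ζ / (p+4)` and `yy ≤ (p+2)/(p+4)`. Let `a' = (n - 1) / (p + 2)` (so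
`a' ≥ a + 1`), `r' = n - (p+2) a'`, `1 ≤ r' ≤ p + 2`. LCQ for `a'`, `r'`:
`∑ min r' (5/4/(p+4) ζ) ≤ a' (bal n - kc)`. With `ρ = (p+4)/(p+5)`: `ρ ≥ 4/5`, `ρ ≥ (p+2)/(p+4)`, so
`yy ≤ ρ min r' (5/4/(p+4) ζ)`; `(p+2) a' ≤ n ≤ (p+2)(p+5)/(p+4) a` gives `ρ a' ≤ a`. So
`∑ yy ≤ ρ a' (bal n - kc) ≤ a (bal n - kc)` (`kc ≤ bal n` by `zyk`). -/
def EDGStmt : Prop :=
  ∀ p : ℕ, ∃ a₀ : ℕ, ∀ a ≥ a₀, ∀ {V : Type} [Fintype V] [DecidableEq V] (G : SimpleGraph V),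
    GG G p a → ∀ v, ∀ u ∈ nb G univ v,
    (p + 4) * (co G v u).card ≤ (p + 2) * (p + 5) * a →
    ES G p a v u (co G v u) ≤
      a * (bal (p + 2) (max (co G v u).card ((p + 2) * (a + 1))) : ℝ)

/-- (EDS) The same with some vertices left out. Needs YSM, PTW, LCQ, BAL (`bal_row`).
PROOF. `n = (co G v u).card ≤ D₁`, `m = W₀.card ≤ n - 1`, `d = D₁ - m ≥ 1`, `g = D₁ - n ≤ d - 1`.
PTW: `yy ≤ g + (d + ζ - g)/(p+4) ≤ (d - 1) + (1 + ζ)/(p+4)` (increasing in `g`), so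
`yy + 3/4 ≤ d + ζ/(p+4)`. If `d ≥ p + 3`: `yy + 3/4 ≤ p + 3 ≤ d` (YSM), and `(a + d) kc G W₀ (p+2) ≤
(a + d) bal m ≤ a bal D₁` (`zyk`, BAL (2)). If `d ≤ p + 2`: `g ≤ p + 1`, and the second bound of
PTW: `yy ≤ g + (p + 2 - g)/(p+4) ≤ p + 1 + 1/(p+4) ≤ p + 2 - 3/4`; so
`yy + 3/4 ≤ min (p+2) (d + 5/4/(p+4) ζ)` and LCQ (`r = p + 2`) for `W₀`. -/
def EDSStmt : Prop :=
  ∀ p : ℕ, ∃ a₀ : ℕ, ∀ a ≥ a₀, ∀ {V : Type} [Fintype V] [DecidableEq V] (G : SimpleGraph V),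
    GG G p a → ∀ v, ∀ u ∈ nb G univ v, ∀ W₀ ⊆ co G v u, W₀.card + 1 ≤ (co G v u).card →
    (co G v u).card ≤ (p + 2) * (a + 1) →
    ES G p a v u W₀ + 3 / 4 * kc G W₀ (p + 2) ≤ a * (bal (p + 2) ((p + 2) * (a + 1)) : ℝ)

/-! ### Sums over cliques -/

/-- (COV) Needs YSM. PROOF. The cliques `L ∈ clq G (nb G univ v) (p+3)` which are disjoint from `U`
and meet `I`: choose `u ∈ L ∩ I` and sum over all `u ∈ L ∩ I` (all terms are `≥ 0`); `L = insert u S`,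
`S = L.erase u ∈ clq G (co G v u \ U) (p+2)`, and `S ↦ insert u S` is injective on sets without `u`
(`sum_link`, `kc_mem` are models). For the other `L` use `a + yy ≤ a + p + 2`. -/
def COVStmt : Prop :=
  ∀ {V : Type} [Fintype V] [DecidableEq V] (G : SimpleGraph V) (p a : ℕ) (v : V)
    (I U : Finset V), I ⊆ nb G univ v →
    LS G p a v ≤ ∑ u ∈ I, ES G p a v u (co G v u \ U) +
      ((a : ℝ) + p + 2) * (((clq G (nb G univ v) (p + 3)).filter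
        (fun L => ¬ (Disjoint L U ∧ ¬ Disjoint L I))).card : ℝ)

/-- (GL2) Double counting. Needs YSM. PROOF. `(v, L) ↦ insert v L`; every `K ∈ clq G univ (p+4)` comes
from the `p + 4` pairs `(v, K.erase v)`, `v ∈ K` (compare `Pool.KQ.glo`, `sum_facets`). -/
def GL2Stmt : Prop :=
  ∀ {V : Type} [Fintype V] [DecidableEq V] (G : SimpleGraph V) (p a : ℕ),
    ∑ v, LS G p a v = (((p : ℝ) + 4) * a + (p + 2)) * kc G univ (p + 4)

/-- (NBR) Numbers. PROOF. (1) `bal_mul_self`; (2) `bal` unfolded (`((p+3) a + (p+2)) / (p+3) = a`);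
(3) `bal_mul` (with `n = k`, `N = N`; `N + k ≤ (p+3) a + (p+2)` and `bal_mono`); (4) BAL (1) if
`N + 1 ≤ q a + q`; in general from `bal_step : bal q (N+1) * (N/q) = bal q N * (N/q + 1)` with
`N / q ≥ a`; (5) `N/q ≤ 2 a`, so `bal q N ≤ (2 a + 1) ^ q`. -/
def NBRStmt : Prop :=
  (∀ p a : ℕ, bal (p + 2) ((p + 2) * (a + 1)) = (a + 1) ^ (p + 2)) ∧
  (∀ p a : ℕ, bal (p + 3) ((p + 3) * a + (p + 2)) = a * (a + 1) ^ (p + 2)) ∧
  (∀ p a k N : ℕ, N + k ≤ (p + 3) * a + (p + 2) →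
    k * bal (p + 2) N ≤ bal (p + 3) ((p + 3) * a + (p + 2))) ∧
  (∀ p a N : ℕ, (p + 2) * a ≤ N →
    (a : ℝ) * ((bal (p + 2) (N + 1) : ℝ) - bal (p + 2) N) ≤ bal (p + 2) N) ∧
  (∀ p a N : ℕ, 1 ≤ a → N < (p + 2) * (2 * a + 1) → (bal (p + 2) N : ℝ) ≤ (3 * a) ^ (p + 2))

/-! ### All vertices: the bound up to `ε` -/

/-- (NMS) Every vertex of `W` misses nearly all of a part. Needs BRK (`brk`).
PROOF. As (A) in the proof of `CSBStmt`: else for `S i = nb G (P i) u` BRK (1) (with `D = 2 a`) and (3):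
`(ε a) ^ (p+3) ≤ ∏ card (S i) ≤ card (trv G S) + C a (2 a) ^ (p+1)`, so for `a` large there is
`f ∈ trv G S`, and `insert u (univ.image f)` is a clique in `W` with `p + 4` vertices. -/
def NMSStmt : Prop :=
  ∀ (p : ℕ) (C ε : ℝ), 0 < ε → ∃ a₀ : ℕ, ∀ a ≥ a₀, ∀ {V : Type} [DecidableEq V]
    (G : SimpleGraph V) (e : ℝ) (W : Finset V) (P : Fin (p + 3) → Finset V) (U : Finset V),
    Str G p a e C W P U → 0 ≤ e → e ≤ 1 / 2 → CB G W (p + 3) → ∀ u ∈ W,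
    ∃ i, ((nb G (P i) u).card : ℝ) ≤ ε * a

/-- (CDG) Codegrees in a dense neighbourhood `W = nb G univ v`. PROOF. (1) `u ∈ P i`: `nb G W u` is
disjoint from `P i` (`par.ind`) and from `non G U u` (the non-neighbours of `u` in `U`); `card (P i) + card U + ∑
(other parts) = card W` (`cov`, `disU`, `par.dis`); (2) the bound `(p+4) n ≤ (p+2)(p+5) a`: `n ≤
W.card - card (P i) ≤ (p+2+e) a + (p+2)` and `e ≤ e1 p ≤ 1/432`, `a ≥ (p+2)(p+4)`; the same for `n ≤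
Δ - card (P i)`. (3) `z ∈ U` with `card (nb G (P i) z) ≤ e1 p / 8 * a`: by `exc` there is `k ≠ i` with
`card (non G (P k) z) ≥ e1 p / 4 * a`; so `card (nb G W z) ≤ e1 p / 8 * a + ∑_(l ≠ i) card (P l) -
e1 p / 4 * a + card U = card W - card (P i) - e1 p / 8 * a ≤ Δ - card (P i) - card U` for
`a ≥ 8 C / e1 p`. -/
def CDGStmt : Prop :=
  ∀ (p : ℕ) (C : ℝ), ∃ a₀ : ℕ, ∀ a ≥ a₀, ∀ {V : Type} [DecidableEq V]
    (G : SimpleGraph V) (e : ℝ) (W : Finset V) (P : Fin (p + 3) → Finset V) (U : Finset V),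
    Str G p a e C W P U → 0 ≤ e → e ≤ e1 p → W.card ≤ (p + 3) * a + (p + 2) → ∀ i,
    (∀ u ∈ P i, (nb G W u).card + (P i).card + (non G U u).card ≤
      (p + 3) * a + (p + 2)) ∧
    (∀ n : ℕ, n + (P i).card ≤ (p + 3) * a + (p + 2) → (p + 4) * n ≤ (p + 2) * (p + 5) * a) ∧
    (∀ z ∈ U, ((nb G (P i) z).card : ℝ) ≤ e1 p / 8 * a →
      (nb G W z).card + (P i).card + U.card ≤ (p + 3) * a + (p + 2))

/-- (ASM) Needs EDG, CDG, NBR. `Δ = (p+3)a + (p+2)`, `M = bal (p+3) Δ`, `U' ⊆ U`.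
PROOF. `W = nb G univ v`, `k = card (P i) + card U' ≤ a`, `N = Δ - k ≥ D₁ = (p+2)(a+1)`, `C' = ⌈C⌉ ≥
card U`. `ε' = min (e1 p / 8) (ε / ((C+1) (C+2) 4 ^ (p+2)))`. (i) `u ∈ P i` not adjacent to any vertex of
`U'`: CDG (1): `n = card (co G v u) ≤ N`; (ii) `u ∈ P i` adjacent to some vertex of `U'`: `n ≤ N + C'`;
at most `card U' * ε' a ≤ C ε' a` such `u`; (iii) `z ∈ U'`: CDG (3): `n ≤ Δ - card (P i) - card U ≤ N`.
EDG (its hypothesis by CDG (2)): `ES ≤ a bal (p+2) N` in cases (i), (iii) (`max n D₁ ≤ N`,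
`bal_mono`), `≤ a bal (p+2) (N + C')` in case (ii), and by NBR (4) `C'` times (for `N, …, N + C' - 1`, with
(5): `N + C' < (p+2)(2a+1)` for `a` large) `bal (N + C') - bal N ≤ C' (3 a) ^ (p+2) / a`. Sum:
`≤ a k bal (p+2) N + C ε' a * a * C' (3 a) ^ (p+2) / a ≤ a M + ε a ^ (p+3)` by NBR (3), and
`a ^ (p+3) ≤ M` by NBR (2). The sum over `u ∈ P i ∪ U'` (disjoint). -/
def ASMStmt : Prop :=
  ∀ (p : ℕ) (C ε : ℝ), 0 < C → 0 < ε → ∃ ε' : ℝ, 0 < ε' ∧ ∃ a₀ : ℕ, ∀ a ≥ a₀,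
    ∀ {V : Type} [Fintype V] [DecidableEq V] (G : SimpleGraph V), GG G p a →
    ∀ (v : V) (e : ℝ) (P : Fin (p + 3) → Finset V) (U : Finset V),
    Str G p a e C (nb G univ v) P U → 0 ≤ e → e ≤ e1 p → ∀ i, ∀ U' ⊆ U,
    (∀ z ∈ U', ((nb G (P i) z).card : ℝ) ≤ ε' * a) → (P i).card + U'.card ≤ a →
    ∑ u ∈ P i ∪ U', ES G p a v u (co G v u) ≤
      ((a : ℝ) + ε) * bal (p + 3) ((p + 3) * a + (p + 2))

/-- (AMS) Few cliques avoid a part. `U_k = {z ∈ U : ι z = k}`.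
PROOF. Let `L ∈ clq G W (p+3)` be disjoint from `P i ∪ U_i`. `L` has `p + 3` vertices in the `p + 2` sets
`P k ∪ U_k`, `k ≠ i`, so two of them, `x ≠ y`, are in the same one (pigeonhole), and they are
adjacent; not both in `P k` (`par.ind`). So `L` contains an adjacent pair `z ∈ U`, `y ∈ P (ι z) ∪ U`:
at most `card U * (ε' a + card U) ≤ C (ε' a + C)` pairs, and at most `(card W) ^ (p+1) ≤
(2 (p+3) a) ^ (p+1)` cliques containing a given pair (the other `p + 1` vertices; `kc_le_choose` on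
`W`, `Nat.choose_le_pow`; `card W ≤ (p+3)(a+1)`). Take `ε' = ε / (2 C (2 (p+3)) ^ (p+1))`, `a` large. -/
def AMSStmt : Prop :=
  ∀ (p : ℕ) (C ε : ℝ), 0 < C → 0 < ε → ∃ ε' : ℝ, 0 < ε' ∧ ∃ a₀ : ℕ, ∀ a ≥ a₀,
    ∀ {V : Type} [DecidableEq V] (G : SimpleGraph V) (e : ℝ) (W : Finset V)
    (P : Fin (p + 3) → Finset V) (U : Finset V), Str G p a e C W P U →
    W.card ≤ (p + 3) * a + (p + 2) → ∀ ι : V → Fin (p + 3),
    (∀ z ∈ U, ((nb G (P (ι z)) z).card : ℝ) ≤ ε' * a) → ∀ i,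
    (((clq G W (p + 3)).filter
      (fun L => Disjoint L (P i ∪ U.filter (fun z => ι z = i)))).card : ℝ) ≤ ε * a ^ (p + 2)

/-- (ARW) The bound up to `ε`. Needs COV, NMS, ASM, AMS, NBR.
PROOF. ASM with `ε/2`, AMS with `ε/4`, `ε'` = the minimum of both, NMS for `ε'`: `ι z` for `z ∈ U`.
`∑_i (card (P i) + card U_i) = card W ≤ Δ < (p+3)(a+1)`: some `i` with `card (P i) + card U_i ≤ a`. COV
with `I = P i ∪ U_i` and `U := ∅` (`co G v u \ ∅ = co G v u`; the filter is `Disjoint L I`):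
`LS ≤ (a + ε/2) M + (a + p + 2) (ε/4) a ^ (p+2) ≤ (a + ε/2) M + (ε/2) a ^ (p+3)`, `a ^ (p+3) ≤ M`. -/
def ARWStmt : Prop :=
  ∀ (p : ℕ) (C ε : ℝ), 0 < C → 0 < ε → ∃ a₀ : ℕ, ∀ a ≥ a₀,
    ∀ {V : Type} [Fintype V] [DecidableEq V] (G : SimpleGraph V), GG G p a →
    ∀ (v : V) (e : ℝ) (P : Fin (p + 3) → Finset V) (U : Finset V),
    Str G p a e C (nb G univ v) P U → 0 ≤ e → e ≤ e1 p →
    LS G p a v ≤ ((a : ℝ) + ε) * bal (p + 3) ((p + 3) * a + (p + 2))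

/-! ### Vertices without bad neighbours: the exact bound -/

/-- (KAP) Cliques with a vertex in `U`. PROOF. (1) choose `z ∈ L ∩ U`; `L.erase z ∈
clq G (nb G W z) (p+2)`, `kc_le_choose`, `Nat.choose_le_pow`-like `choose n j ≤ n ^ j`. (2) the same
with `x ∈ L`: `L \ {z, x} ∈ clq G (nb G W z) (p+1)`; `z` is adjacent to `x` (or `z = x ∉ U`). -/
def KAPStmt : Prop :=
  ∀ {V : Type} [DecidableEq V] (G : SimpleGraph V) (p : ℕ) (d : ℝ) (W U : Finset V), U ⊆ W →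
    (∀ z ∈ U, ((nb G W z).card : ℝ) ≤ d) →
    (((clq G W (p + 3)).filter (fun L => ¬ Disjoint L U)).card : ℝ) ≤ U.card * d ^ (p + 2) ∧
    ∀ x, x ∉ U → (((clq G W (p + 3)).filter (fun L => x ∈ L ∧ ¬ Disjoint L U)).card : ℝ) ≤
      U.card * d ^ (p + 1)

/-- (KLB) Many cliques in the neighbourhood of an ordinary vertex. Needs BRK, TRV.
PROOF. `u ∈ P i`, `S k = nb G (P k) u` for `k ≠ i`, `S i = P i`. `card (S k) ≥ (1 - e - e1 p) a ≥
(1 - 2 e1 p) a` for `k ≠ i`. BRK (1), (3): `∏ card (S k) ≤ card (trv G S) + C a (2 a) ^ (p+1)`. For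
`f ∈ trv G S` the set `univ.image f \ {f i}` is a clique with `p + 2` vertices in `nb G W u \ U`, and
each comes from at most `card (P i)` elements `f`. So `kc ≥ card (trv) / card (P i) ≥
∏_(k ≠ i) card (S k) - 2 C (2 a) ^ (p+1) ≥ (1 - 2 (p+2) e1 p) a ^ (p+2) ... ≥ a ^ (p+2) / 2`. -/
def KLBStmt : Prop :=
  ∀ (p : ℕ) (C : ℝ), ∃ a₀ : ℕ, ∀ a ≥ a₀, ∀ {V : Type} [DecidableEq V]
    (G : SimpleGraph V) (e : ℝ) (W : Finset V) (P : Fin (p + 3) → Finset V) (U : Finset V),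
    Str G p a e C W P U → 0 ≤ e → e ≤ e1 p → ∀ i, ∀ u ∈ P i,
    (a : ℝ) ^ (p + 2) / 2 ≤ kc G (nb G W u \ U) (p + 2)

/-- (MEE) Cliques meet the parts. `#Z > card U`, `Z` a set of indices. PROOF. `L ∈ clq G W (p+3)` has at
most one vertex in each `P i` (`par.ind`) and the others in `U` (`cov`). (1) `L` disjoint from `U` has
`p + 3` vertices in `p + 3` parts, so one in each. (2) `L` has at least `p + 3 - card U` vertices in
the parts, so it misses at most `card U < card Z` parts. -/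
def MEEStmt : Prop :=
  ∀ {V : Type} [DecidableEq V] (G : SimpleGraph V) (p a : ℕ) (e C : ℝ) (W : Finset V)
    (P : Fin (p + 3) → Finset V) (U : Finset V), Str G p a e C W P U →
    ∀ L ∈ clq G W (p + 3), (Disjoint L U → ∀ i, ∃ u ∈ L, u ∈ P i) ∧
      ∀ Z : Finset (Fin (p + 3)), U.card < Z.card → ∃ i ∈ Z, ∃ u ∈ L, u ∈ P i

/-- (BZE) No exceptional vertices (`U = ∅`). Needs EDG, COV, CDG, MEE, NBR.
PROOF. `∑ card (P i) = card W ≤ Δ < (p+3)(a+1)`: some `i` with `k = card (P i) ≤ a`. COV with `I = P i`,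
`U = ∅`: the filter is empty (MEE (1)). EDG: `n = card (co G v u) ≤ Δ - k =: N`, `N ≥ D₁`, so
`LS ≤ k a bal (p+2) N ≤ a M` by NBR (3). -/
def BZEStmt : Prop :=
  ∀ (p : ℕ) (C : ℝ), ∃ a₀ : ℕ, ∀ a ≥ a₀, ∀ {V : Type} [Fintype V] [DecidableEq V]
    (G : SimpleGraph V), GG G p a → ∀ (v : V) (e : ℝ) (P : Fin (p + 3) → Finset V),
    Str G p a e C (nb G univ v) P ∅ → 0 ≤ e → e ≤ e1 p →
    LS G p a v ≤ a * (bal (p + 3) ((p + 3) * a + (p + 2)) : ℝ)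

/-- (BON) Exceptional vertices which are strangers, and a small part. Needs EDG, COV, CDG, MEE,
KAP, NBR, YSM. `δ = min 1 (1 / (3 C))`.
PROOF. `k = card (P i) ≤ a - 1`, `N = Δ - k ≥ D₁ + 1`. COV with `I = P i` and `U`: the filter is
`¬ Disjoint L U` by MEE (1), KAP (1) with `d = δ a`: `κ ≤ C (δ a) ^ (p+2) ≤ C δ a ^ (p+2)`.
`ES G p a v u (co G v u \ U) ≤ ES G p a v u (co G v u)` (terms `≥ 0`). For `u ∈ P i` not adjacent to any
vertex of `U`: CDG (1): `n ≤ N - card U ≤ N - 1`, EDG: `≤ a bal (N-1)` (`N - 1 ≥ D₁`); the others, at most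
`∑_(z ∈ U) card (nb G W z) ≤ C δ a` of them: `n ≤ N`, `≤ a bal N ≤ a bal (N-1) + bal (N-1)` by NBR (4).
So `LS ≤ a k B + C δ a B + (a + p + 2) C δ a ^ (p+2)` with `B = bal (p+2) (N-1) ≥ (a+1) ^ (p+2)`;
`(k + 1) B ≤ M` by NBR (3): `LS ≤ a M - a B (1 - 3 C δ) ≤ a M` (`a ≥ p + 2`). -/
def BONStmt : Prop :=
  ∀ (p : ℕ) (C : ℝ), 0 < C → ∃ δ : ℝ, 0 < δ ∧ ∃ a₀ : ℕ, ∀ a ≥ a₀,
    ∀ {V : Type} [Fintype V] [DecidableEq V] (G : SimpleGraph V), GG G p a →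
    ∀ (v : V) (e : ℝ) (P : Fin (p + 3) → Finset V) (U : Finset V),
    Str G p a e C (nb G univ v) P U → 0 ≤ e → e ≤ e1 p → U.Nonempty →
    (∀ z ∈ U, ((co G v z).card : ℝ) ≤ δ * a) → (∃ i, (P i).card + 1 ≤ a) →
    LS G p a v ≤ a * (bal (p + 3) ((p + 3) * a + (p + 2)) : ℝ)

/-- (BTW) Exceptional vertices which are strangers, and no small part. Needs EDG, EDS, COV, CDG,
MEE, KAP, KLB, NBR, YSM. `δ = min 1 (3 / (16 (p+3) C))`.
PROOF. `W = nb G univ v`, `Z = {i : card (P i) = a}`. `∑ card (P i) + card U = card W ≤ Δ` and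
`∑ card (P i) ≥ (p+3) a + (p + 3 - card Z)`, so `card Z ≥ card U + 1`. Let `i ∈ Z`, `M = a bal (p+2) D₁ =
a (a+1) ^ (p+2)` (NBR (1), (2)), `T i = {u ∈ P i : u is adjacent to a vertex of U}`, `κ` = number of
`L ∈ clq G W (p+3)` with `¬ Disjoint L U`. COV with `I = P i` and `U` (filter: MEE (1)). For `u ∈ P i`:
`n = card (co G v u) ≤ Δ - a = D₁` (CDG (1)). If `u ∉ T i` then `co G v u \ U = co G v u` and EDG:
`ES ≤ M`. If `u ∈ T i`: EDS with `W₀ = co G v u \ U` and KLB: `ES ≤ M - (3/8) a ^ (p+2)`. So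
`LS ≤ a M - (3/8) a ^ (p+2) card (T i) + (a + p + 2) κ`. Sum over `i ∈ Z`:
`card Z * LS ≤ card Z * a M - (3/8) a ^ (p+2) t + (p+3) (a + p + 2) κ`, `t = ∑_(i ∈ Z) card (T i)`. By
MEE (2) every `L` counted in `κ` contains some `u ∈ P i`, `i ∈ Z`, and `u ∈ T i` as `L` is a clique; by
KAP (2) (`d = δ a`) `κ ≤ t C (δ a) ^ (p+1) ≤ t C δ a ^ (p+1)`. So the last two terms are
`≤ t a ^ (p+2) (2 (p+3) C δ - 3/8) ≤ 0` (`a ≥ p + 2`). -/
def BTWStmt : Prop :=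
  ∀ (p : ℕ) (C : ℝ), 0 < C → ∃ δ : ℝ, 0 < δ ∧ ∃ a₀ : ℕ, ∀ a ≥ a₀,
    ∀ {V : Type} [Fintype V] [DecidableEq V] (G : SimpleGraph V), GG G p a →
    ∀ (v : V) (e : ℝ) (P : Fin (p + 3) → Finset V) (U : Finset V),
    Str G p a e C (nb G univ v) P U → 0 ≤ e → e ≤ e1 p → U.Nonempty →
    (∀ z ∈ U, ((co G v z).card : ℝ) ≤ δ * a) → (∀ i, a ≤ (P i).card) →
    LS G p a v ≤ a * (bal (p + 3) ((p + 3) * a + (p + 2)) : ℝ)

/-! ### Good vertices: ordinary or stranger -/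

/-- (WKS) In a dense graph nearly all vertices have large degree.
PROOF. `b = p + 3`, `q = p + 2`. Suppose `X ⊆ W`, `card X = x = ⌈c₁ a⌉ ≤ c₁ a + 1`, all degrees
`< (q - c₁) a` (so `c₁ < q`). `kc_le_sum`: `kc G W b ≤ ∑_(x ∈ X) kc G (nb G W x) q + kc G (W \ X) b`;
`zyk_real` (`kc G W (q+1) ≤ (card W / (q+1)) ^ (q+1)`, see its statement):
`≤ (c₁ a + 1) ((1 - c₁/q) a) ^ q + (a + 1 - c₁ a / b) ^ b`. With `1 + s ≤ exp s`:
`≤ a ^ b exp (-c₁) (c₁ + 1/a + exp (b/a))`. As `(1 + c₁) exp (-c₁) < 1` let `c` with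
`(1 + c₁) exp (-c₁) = 1 - 3 c`; for `a` large the bound is `≤ (1 - 2 c) a ^ b < (1 - c) M`
(`M ≥ a ^ b`: `bal_mul_self`, `bal_mono`). Contradiction. (If `1 - c ≤ 0` nothing to change: `c < 1/3`.) -/
def WKSStmt : Prop :=
  ∀ (p : ℕ) (c₁ : ℝ), 0 < c₁ → ∃ c : ℝ, 0 < c ∧ c < 1 ∧ ∃ a₀ : ℕ, ∀ a ≥ a₀,
    ∀ {V : Type} [DecidableEq V] (G : SimpleGraph V) (W : Finset V), CB G W (p + 3) →
    W.card ≤ (p + 3) * a + (p + 2) →
    (1 - c) * (bal (p + 3) ((p + 3) * a + (p + 2)) : ℝ) ≤ kc G W (p + 3) →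
    ((W.filter (fun x => ((nb G W x).card : ℝ) < ((p : ℝ) + 2 - c₁) * a)).card : ℝ) ≤ c₁ * a

/-- (CLM) One step. `W = nb G univ v`, `z ∈ U` misses nearly all of `P i`, sees many vertices of `P j`;
then it sees nearly all of `P l`.
PROOF. More than `2 c₁ a` vertices `u ∈ P j` are adjacent to `z`; by hypothesis at most `c₁ a` of them
have `card (nb G (nb G univ z) u) < (p+2-c₁) a`; at most `tot / (c₁ a) ≤ C / c₁ < c₁ a` of them have
`∑_(k ≠ j) card (non G (P k) u) > c₁ a` (`Str.tot`). Choose `u` which is neither. `N(u)` has `≤ Δ` elements,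
so `card (N(u) \ N(z)) ≤ (1 + c₁) a + p + 2`. It contains the disjoint sets `(P i ∩ N(u)) \ N(z)`, with
`≥ (1 - e) a - 2 c₁ a` elements, and `(P l ∩ N(u)) \ N(z)`; so the latter has
`≤ (3 c₁ + e) a + p + 2` elements and `card (non G (P l) z) ≤ (4 c₁ + e) a + p + 2 < e1 p / 4 * a`
(`4 c₁ + e ≤ e1 p / 8`, `a > 8 (p+2) / e1 p`). -/
def CLMStmt : Prop :=
  ∀ (p : ℕ) (C c₁ : ℝ), 0 < c₁ → c₁ ≤ e1 p / 64 → ∃ a₀ : ℕ, ∀ a ≥ a₀,
    ∀ {V : Type} [Fintype V] [DecidableEq V] (G : SimpleGraph V), GG G p a →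
    ∀ (v : V) (e : ℝ) (P : Fin (p + 3) → Finset V) (U : Finset V),
    Str G p a e C (nb G univ v) P U → 0 ≤ e → e ≤ e1 p / 32 → ∀ z ∈ U,
    (((nb G univ z).filter (fun x => ((nb G (nb G univ z) x).card : ℝ) <
      ((p : ℝ) + 2 - c₁) * a)).card : ℝ) ≤ c₁ * a →
    ∀ i j l, j ≠ i → l ≠ i → l ≠ j → ((nb G (P i) z).card : ℝ) ≤ c₁ * a →
    2 * c₁ * a < ((nb G (P j) z).card : ℝ) → ((non G (P l) z).card : ℝ) < e1 p / 4 * a

/-- (STG) A good exceptional vertex is a stranger. Needs NMS, WKS, CLM. `c₁ = min (e1 p / 64)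
(δ / (4 (p+3)))`, `e₀ = e1 p / 32`, `c` from WKS.
PROOF. NMS (with `c₁`): `i` with `card (nb G (P i) z) ≤ c₁ a`. CLAIM `card (nb G (P j) z) ≤ 2 c₁ a` for
all `j ≠ i`. Otherwise by `exc` there is `k ≠ i` with `card (non G (P k) z) ≥ e1 p / 4 * a`; CLM:
`k = j`. Choose `l ≠ i, j` (there are at least three indices); by CLM for `l`:
`card (nb G (P l) z) = card (P l) - card (non G (P l) z) ≥ (1 - e - e1 p / 4) a > 2 c₁ a`, and CLM with
`j := l`, `l := j`: `card (non G (P j) z) < e1 p / 4 * a`, a contradiction. So (`cov`)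
`card (co G v z) ≤ ∑_j card (nb G (P j) z) + card U ≤ 2 (p+3) c₁ a + C ≤ δ a`. WKS is applied to
`nb G univ z` (`CB.nb`). -/
def STGStmt : Prop :=
  ∀ (p : ℕ) (δ : ℝ), 0 < δ → ∃ c : ℝ, 0 < c ∧ c < 1 ∧ ∃ e₀ : ℝ, 0 < e₀ ∧ e₀ ≤ e1 p ∧ ∀ C : ℝ,
    ∃ a₀ : ℕ, ∀ a ≥ a₀, ∀ {V : Type} [Fintype V] [DecidableEq V] (G : SimpleGraph V), GG G p a →
    ∀ (v : V) (e : ℝ) (P : Fin (p + 3) → Finset V) (U : Finset V),
    Str G p a e C (nb G univ v) P U → 0 ≤ e → e ≤ e₀ → ∀ z ∈ U,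
    (1 - c) * (bal (p + 3) ((p + 3) * a + (p + 2)) : ℝ) ≤ kc G (nb G univ z) (p + 3) →
    ((co G v z).card : ℝ) ≤ δ * a

/-! ### Assembly (helper7) -/

/-- (UPT) The bound for all graphs. -/
def UPTStmt : Prop :=
  ∀ p : ℕ, ∃ a₀ : ℕ, ∀ a ≥ a₀, ∀ {V : Type} [Fintype V] [DecidableEq V] (G : SimpleGraph V),
    GG G p a → (kc G univ (p + 4) : ℝ) * ((p + 4) * a + (p + 2)) ≤
      a * bal (p + 3) ((p + 3) * a + (p + 2)) * Fintype.card V

end Pool.KR
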