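import Pool.Agent.H7.KR.Stmts
import Pool.Agent.H52.KQ.TUR

/-! # The last residue: the bound for all graphs with vertex set `Fin m` (board `kr`) -/

set_option autoImplicit false

open Finset

namespace Pool.KR

open Pool.Agent.H23.KT Pool.Agent.H46.KW Pool.KQ

lemma cb_of_cliqueFree (p : ℕ) {m : ℕ} (H : SimpleGraph (Fin m)) (hcf : H.CliqueFree (p + 5)) :
    CB H (univ : Finset (Fin m)) (p + 4) := by
  intro S _ hS
  by_contra hlt
  push Not at hlt
  obtain ⟨S', hS', hc'⟩ := exists_subset_card_eq (show p + 5 ≤ S.card by omega)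
  exact hcf S' ⟨hS.subset (by
    intro y hy
    exact mem_coe.2 (hS' (mem_coe.1 hy))), hc'⟩

lemma tur_upper (p a : ℕ) {m : ℕ} (H : SimpleGraph (Fin m))
    (hm : m = (p + 4) * a + (p + 2)) (hcf : H.CliqueFree (p + 5)) :
    {s : Finset (Fin m) | H.IsNClique (p + 4) s}.ncard ≤ a ^ 2 * (a + 1) ^ (p + 2) := by
  classical
  have hCB := cb_of_cliqueFree p H hcf
  rw [ncard_eq_kc]
  have h1 := zyk (p + 3) univ hCB
  have h2 := TURh.bal_val (p + 4) (p + 2) a (by omega)
  rw [show p + 4 - (p + 2) = 2 by omega] at h2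
  have h3 : bal (p + 3 + 1) (univ : Finset (Fin m)).card = a ^ 2 * (a + 1) ^ (p + 2) := by
    rw [card_univ, Fintype.card_fin, hm]
    exact h2
  exact h1.trans (le_of_eq h3)

theorem tur2 (p a : ℕ) :
    (∀ v, ((SimpleGraph.turanGraph ((p + 4) * a + (p + 2)) (p + 4)).neighborSet v).ncard ≤
      (p + 3) * a + (p + 2)) ∧
    (SimpleGraph.turanGraph ((p + 4) * a + (p + 2)) (p + 4)).CliqueFree (p + 5) ∧
    {s : Finset (Fin ((p + 4) * a + (p + 2))) |
      (SimpleGraph.turanGraph ((p + 4) * a + (p + 2)) (p + 4)).IsNClique (p + 4) s}.ncard =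
      a ^ 2 * (a + 1) ^ (p + 2) := by
  have hcf : (SimpleGraph.turanGraph ((p + 4) * a + (p + 2)) (p + 4)).CliqueFree (p + 5) :=
    SimpleGraph.turanGraph_cliqueFree (by omega)
  refine ⟨TURh.deg (p + 3) a (p + 2), hcf, ?_⟩
  apply le_antisymm
  · exact tur_upper p a _ rfl hcf
  · have := TURh.lower (p + 3) (p + 2) a (by omega)
    rw [show p + 3 + 1 - (p + 2) = 2 by omega] at this
    exact this

/-- The bound for all graphs with vertex set `Fin m`. -/
theorem upper2 (hUPT : UPTStmt) (p : ℕ) :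
    ∃ a₀ : ℕ, ∀ a ≥ a₀, ∀ (m : ℕ) (H : SimpleGraph (Fin m)),
      (∀ v, (H.neighborSet v).ncard ≤ (p + 3) * a + (p + 2)) → H.CliqueFree (p + 5) →
        {s : Finset (Fin m) | H.IsNClique (p + 4) s}.ncard * ((p + 4) * a + (p + 2))
          ≤ a ^ 2 * (a + 1) ^ (p + 2) * m := by
  obtain ⟨a₀, h0⟩ := hUPT p
  refine ⟨a₀, ?_⟩
  intro a ha m H hdeg hcf
  have hdeg' : ∀ v, (nb H univ v).card ≤ (p + 3) * a + (p + 2) := by
    intro v
    have h1 : ((nb H univ v : Finset (Fin m)) : Set (Fin m)) = H.neighborSet v := by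
      ext w
      rw [mem_coe, mem_nb, SimpleGraph.mem_neighborSet]
      simp
    rw [← Set.ncard_coe_finset, h1]
    exact hdeg v
  have hCB := cb_of_cliqueFree p H hcf
  have h1 := h0 a ha H ⟨hCB, hdeg'⟩
  have h2 := TURh.bal_val (p + 3) (p + 2) a (by omega)
  rw [show p + 3 - (p + 2) = 1 by omega, pow_one] at h2
  rw [Fintype.card_fin, h2] at h1
  rw [ncard_eq_kc]
  have h3 : ((kc H univ (p + 4) * ((p + 4) * a + (p + 2)) : ℕ) : ℝ) ≤
      ((a ^ 2 * (a + 1) ^ (p + 2) * m : ℕ) : ℝ) := by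
    push_cast
    push_cast at h1
    refine h1.trans (le_of_eq ?_)
    ring
  exact_mod_cast h3

end Pool.KR
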