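import Pool.Agent.H7.KQ.All
import Pool.Agent.H7.KR.Fin

/-! # The final statement: assembly (board `kr`) -/

set_option autoImplicit false

open Finset

namespace Pool.KR

theorem final (hUPT : UPTStmt) : ∃ D : ℕ → ℕ → ℕ,
    (∀ ω, D ω 1 = max (ω - 1) ((ω * (ω - 2) ^ 3 + 15) / 16)) ∧
    ∀ ω Δ : ℕ, 4 ≤ ω → D ω (Δ % (ω - 1)) ≤ Δ / (ω - 1) →
    (∀ v, ((SimpleGraph.turanGraph (Δ + Δ / (ω - 1)) ω).neighborSet v).ncard ≤ Δ) ∧
    (SimpleGraph.turanGraph (Δ + Δ / (ω - 1)) ω).CliqueFree (ω + 1) ∧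
    {s : Finset (Fin (Δ + Δ / (ω - 1))) |
        (SimpleGraph.turanGraph (Δ + Δ / (ω - 1)) ω).IsNClique ω s}.ncard
      = (Δ / (ω - 1)) ^ (ω - Δ % (ω - 1)) * (Δ / (ω - 1) + 1) ^ (Δ % (ω - 1)) ∧
    ∀ m : ℕ, 0 < m → ∀ H : SimpleGraph (Fin m),
      (∀ v, (H.neighborSet v).ncard ≤ Δ) → H.CliqueFree (ω + 1) →
        {s : Finset (Fin m) | H.IsNClique ω s}.ncard * (Δ + Δ / (ω - 1)) ≤
          {s : Finset (Fin (Δ + Δ / (ω - 1))) |
            (SimpleGraph.turanGraph (Δ + Δ / (ω - 1)) ω).IsNClique ω s}.ncard * m := by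
  obtain ⟨D, hD⟩ := Pool.KQ.all
  choose A hA using upper2 hUPT
  refine ⟨fun ω r => if r = 1 then max (ω - 1) ((ω * (ω - 2) ^ 3 + 15) / 16) else
    max (D ω) (A (ω - 4)), fun ω => if_pos rfl, ?_⟩
  intro ω Δ hω ha
  by_cases h1 : Δ % (ω - 1) = 1
  · refine hD ω Δ hω (Or.inr ?_)
    simp only [h1, if_true] at ha
    have h2 : ω - 1 ≤ Δ / (ω - 1) := le_trans (le_max_left _ _) ha
    have h3 : (ω * (ω - 2) ^ 3 + 15) / 16 ≤ Δ / (ω - 1) := le_trans (le_max_right _ _) ha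
    exact ⟨h1, h2, by omega⟩
  · simp only [h1, if_false] at ha
    have hD1 : D ω ≤ Δ / (ω - 1) := le_trans (le_max_left _ _) ha
    have hA1 : A (ω - 4) ≤ Δ / (ω - 1) := le_trans (le_max_right _ _) ha
    by_cases hr : Δ % (ω - 1) ≤ ω - 3
    · exact hD ω Δ hω (Or.inl ⟨hr, hD1.trans (Nat.div_le_self _ _)⟩)
    · obtain ⟨p, rfl⟩ : ∃ p, ω = p + 4 := ⟨ω - 4, by omega⟩
      have e1 : p + 4 - 1 = p + 3 := by omega
      have e3 : p + 4 - 3 = p + 1 := by omega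
      have e4 : p + 4 - 4 = p := by omega
      rw [e1, e3] at hr
      rw [e1, e4] at hA1
      rw [e1]
      have hlt : Δ % (p + 3) < p + 3 := Nat.mod_lt _ (by omega)
      have hmod : Δ % (p + 3) = p + 2 := by omega
      obtain ⟨a, haΔ⟩ : ∃ a, a = Δ / (p + 3) := ⟨_, rfl⟩
      rw [← haΔ] at hA1
      rw [hmod, ← haΔ]
      have hΔ : Δ = (p + 3) * a + (p + 2) := by
        have := Nat.div_add_mod Δ (p + 3)
        rw [hmod, ← haΔ] at this
        exact this.symm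
      have hsum : Δ + a = (p + 4) * a + (p + 2) := by
        rw [hΔ]
        ring
      obtain ⟨t1, t2, t3⟩ := tur2 p a
      have hup := hA p a hA1
      clear haΔ hmod hlt hr hD1 ha h1
      subst hΔ
      rw [hsum, show p + 4 - (p + 2) = 2 by omega]
      refine ⟨t1, t2, t3, ?_⟩
      intro m _ H hdeg hcf
      rw [t3]
      exact hup m H hdeg hcf

end Pool.KR
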