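import Pool.Agent.H7.KR.Stmts

/-! # The bound for all graphs: assembly (board `kr`) -/

set_option autoImplicit false

open Finset

namespace Pool.KR

open Pool.Agent.H23.KT Pool.Agent.H46.KW Pool.KQ

theorem lcq (h1 : LCAStmt) (h2 : LCBStmt) : LCQStmt := by
  intro p
  rcases Nat.eq_zero_or_pos p with rfl | hp
  · refine ⟨2, ?_⟩
    intro r hr a ha V _ G W hCB hW
    have h3 := h2 r (by omega) a ha G W (by simpa using hCB) (by simpa using hW)
    have e : (5 : ℝ) / 4 / ((((0 : ℕ) : ℝ)) + 4) = 5 / 16 := by norm_num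
    rw [e]
    simpa using h3
  · exact h1 p hp

lemma e1_pos' (p : ℕ) : 0 < e1 p := by unfold e1; positivity

lemma e1_le' (p : ℕ) : e1 p ≤ 1 / 2 := by
  unfold e1
  have h : (1 : ℝ) ≤ ((p : ℝ) + 3) ^ 3 := by
    apply one_le_pow₀
    have : (0 : ℝ) ≤ p := Nat.cast_nonneg p
    linarith
  rw [div_le_div_iff₀ (by positivity) (by norm_num)]
  linarith

/-- A crude bound for the local sum. -/
lemma LS_le (hYSM : YSMStmt) {V : Type} [Fintype V] [DecidableEq V] (G : SimpleGraph V)
    (p a : ℕ) (v : V) : LS G p a v ≤ ((a : ℝ) + p + 2) * kc G (nb G univ v) (p + 3) := by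
  unfold LS
  have h1 : ∀ L ∈ clq G (nb G univ v) (p + 3), ((a : ℝ) + yy G p a (insert v L) v) ≤
      (a : ℝ) + p + 2 := by
    intro L hL
    rw [mem_clq] at hL
    have hv : v ∉ L := by
      intro h
      have := hL.1 h
      rw [mem_nb] at this
      exact G.loopless.irrefl v this.2
    have hc : (insert v L).card = p + 4 := by
      rw [card_insert_of_notMem hv]
      have := hL.2.2
      omega
    have := (hYSM G p a (insert v L) hc).2.2 v (mem_insert_self _ _)
    linarith
  refine (sum_le_card_nsmul _ _ _ h1).trans ?_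
  rw [nsmul_eq_mul, ← kc_eq, mul_comm]

/-- Neighbours in `B`, summed. -/
lemma sum_nb {V : Type} [Fintype V] [DecidableEq V] (G : SimpleGraph V) (B : Finset V) :
    ∑ v, (nb G B v).card = ∑ w ∈ B, (nb G univ w).card := by
  classical
  have h1 : ∀ v, (nb G B v).card = ∑ w ∈ B, if G.Adj v w then 1 else 0 := by
    intro v
    rw [← card_filter]
    congr 1
  have h2 : ∀ w, (nb G univ w).card = ∑ v, if G.Adj v w then 1 else 0 := by
    intro w
    rw [← card_filter]
    congr 1
    ext v
    rw [mem_nb, mem_filter]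
    constructor
    · rintro ⟨_, h⟩
      exact ⟨mem_univ _, h.symm⟩
    · rintro ⟨_, h⟩
      exact ⟨mem_univ _, h.symm⟩
  simp_rw [h1, h2]
  exact sum_comm

theorem upt (hYSM : YSMStmt) (hGL2 : GL2Stmt) (hPRE : PRE3Stmt)
    (hREA : REAStmt) (hARW : ARWStmt) (hBZE : BZEStmt) (hBON : BONStmt) (hBTW : BTWStmt)
    (hSTG : STGStmt) : UPTStmt := by
  intro p
  obtain ⟨C0, hC0, hP⟩ := hPRE p (p + 2) (by omega)
  obtain ⟨C, hC, hR⟩ := hREA p C0 hC0
  obtain ⟨δ1, hδ1, a1, hN⟩ := hBON p C hC
  obtain ⟨δ2, hδ2, a2, hT⟩ := hBTW p C hC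
  obtain ⟨c, hc0, hc1, e₀, he₀, he₀1, hS⟩ := hSTG p (min δ1 δ2) (lt_min hδ1 hδ2)
  have hp0 : (0 : ℝ) ≤ p := Nat.cast_nonneg p
  obtain ⟨ε, hε⟩ : ∃ ε : ℝ, ε = c / (8 * ((p : ℝ) + 3)) := ⟨_, rfl⟩
  have hε0 : 0 < ε := by rw [hε]; positivity
  obtain ⟨a3, hS'⟩ := hS C
  obtain ⟨a4, hA⟩ := hARW p C ε hC hε0
  obtain ⟨a5, hZ⟩ := hBZE p C
  obtain ⟨a6, h6⟩ := hP (e₀ / 2) (by positivity)
  obtain ⟨a7, h7⟩ := hR e₀ he₀ (he₀1.trans (e1_le' p))
  obtain ⟨a8, h8⟩ := exists_nat_ge (2 * ((p : ℝ) + 2) / c)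
  refine ⟨a1 + a2 + a3 + a4 + a5 + a6 + a7 + a8 + 1, ?_⟩
  intro a ha V _ _ G hG
  have haR : (1 : ℝ) ≤ a := by
    have : 1 ≤ a := by omega
    exact_mod_cast this
  have ha8 : 2 * ((p : ℝ) + 2) / c ≤ a := by
    refine h8.trans ?_
    have : a8 ≤ a := by omega
    exact_mod_cast this
  rw [div_le_iff₀ hc0] at ha8
  obtain ⟨M, hM⟩ : ∃ M : ℝ, M = (bal (p + 3) ((p + 3) * a + (p + 2)) : ℝ) := ⟨_, rfl⟩
  have hM0 : 0 ≤ M := by rw [hM]; exact Nat.cast_nonneg _
  set Bad : Finset V := univ.filter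
    (fun w => (kc G (nb G univ w) (p + 3) : ℝ) < (1 - c) * M) with hBad
  have hΔ : (((p + 3) * a + (p + 2) : ℕ) : ℝ) ≤ 2 * ((p : ℝ) + 3) * a := by
    push_cast
    nlinarith
  -- the bound for a vertex
  have key : ∀ v, LS G p a v ≤ a * M + ε * M * (nb G Bad v).card -
      (if v ∈ Bad then c / 2 * a * M else 0) := by
    intro v
    have hnn : 0 ≤ ε * M * ((nb G Bad v).card : ℝ) := by positivity
    by_cases hv : v ∈ Bad
    · rw [if_pos hv]
      rw [hBad, mem_filter] at hv
      have h1 := LS_le hYSM G p a v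
      have h2 : ((a : ℝ) + p + 2) * kc G (nb G univ v) (p + 3) ≤
          ((a : ℝ) + p + 2) * ((1 - c) * M) :=
        mul_le_mul_of_nonneg_left hv.2.le (by positivity)
      have h3 : ((a : ℝ) + p + 2) * (1 - c) ≤ a * (1 - c / 2) := by nlinarith
      have h4 : ((a : ℝ) + p + 2) * ((1 - c) * M) ≤ a * (1 - c / 2) * M := by
        calc ((a : ℝ) + p + 2) * ((1 - c) * M) = (((a : ℝ) + p + 2) * (1 - c)) * M := by ring
          _ ≤ _ := mul_le_mul_of_nonneg_right h3 hM0
      have h5 : a * (1 - c / 2) * M = a * M - c / 2 * a * M := by ring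
      linarith
    · rw [if_neg hv]
      rcases Nat.lt_or_ge ((a + (p + 2)) * kc G (nb G univ v) (p + 3))
        (a * bal (p + 3) ((p + 3) * a + (p + 2))) with hd | hd
      · have h1 := LS_le hYSM G p a v
        have h2 : (((a + (p + 2)) * kc G (nb G univ v) (p + 3) : ℕ) : ℝ) ≤
            ((a * bal (p + 3) ((p + 3) * a + (p + 2)) : ℕ) : ℝ) := by
          exact_mod_cast hd.le
        push_cast at h2
        rw [hM]
        have h3 : ((a : ℝ) + p + 2) * kc G (nb G univ v) (p + 3) =
            ((a : ℝ) + (p + 2)) * kc G (nb G univ v) (p + 3) := by ring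
        rw [hM] at hnn
        linarith
      · have hCB : CB G (nb G univ v) (p + 3) := hG.cb.nb (mem_univ v)
        obtain ⟨A, hA1, hA2, hA3, hA4, hA5⟩ := h6 a (by omega) G (nb G univ v) hCB (hG.deg v) hd
        obtain ⟨P, U, hStr⟩ := h7 a (by omega) G (nb G univ v) A hCB hA1 hA2 hA3 hA4 hA5
        by_cases hbad : ∃ z ∈ U, (kc G (nb G univ z) (p + 3) : ℝ) < (1 - c) * M
        · obtain ⟨z, hzU, hz⟩ := hbad
          have hzv : z ∈ nb G univ v := (hStr.cov z).2 (Or.inl hzU)
          have hzB : z ∈ nb G Bad v := by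
            rw [mem_nb]
            refine ⟨?_, ((mem_nb G).1 hzv).2⟩
            rw [hBad, mem_filter]
            exact ⟨mem_univ z, hz⟩
          have hcard : (1 : ℝ) ≤ ((nb G Bad v).card : ℝ) := by
            have : 1 ≤ (nb G Bad v).card := card_pos.2 ⟨z, hzB⟩
            exact_mod_cast this
          have h1 := hA a (by omega) G hG v e₀ P U hStr he₀.le he₀1
          rw [← hM] at h1
          have h2 : ε * M * 1 ≤ ε * M * ((nb G Bad v).card : ℝ) :=
            mul_le_mul_of_nonneg_left hcard (by positivity)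
          have h3 : ((a : ℝ) + ε) * M = a * M + ε * M * 1 := by ring
          linarith
        · push Not at hbad
          have hexact : LS G p a v ≤ a * M := by
            rcases U.eq_empty_or_nonempty with hU | hU
            · rw [hU] at hStr
              have := hZ a (by omega) G hG v e₀ P hStr he₀.le he₀1
              rw [← hM] at this
              exact this
            · have hstr : ∀ z ∈ U, ((co G v z).card : ℝ) ≤ min δ1 δ2 * a := by
                intro z hz
                refine hS' a (by omega) G hG v e₀ P U hStr he₀.le le_rfl z hz ?_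
                rw [← hM]
                exact hbad z hz
              by_cases hsm : ∃ i, (P i).card + 1 ≤ a
              · have := hN a (by omega) G hG v e₀ P U hStr he₀.le he₀1 hU (fun z hz =>
                  (hstr z hz).trans (mul_le_mul_of_nonneg_right (min_le_left _ _)
                    (by positivity))) hsm
                rw [← hM] at this
                exact this
              · push Not at hsm
                have := hT a (by omega) G hG v e₀ P U hStr he₀.le he₀1 hU (fun z hz =>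
                  (hstr z hz).trans (mul_le_mul_of_nonneg_right (min_le_right _ _)
                    (by positivity))) (fun i => by have := hsm i; omega)
                rw [← hM] at this
                exact this
          linarith
  -- sum
  have hsum := sum_le_sum (fun v (_ : v ∈ (univ : Finset V)) => key v)
  rw [hGL2 G p a, sum_sub_distrib, sum_add_distrib, sum_const, nsmul_eq_mul, ← mul_sum,
    card_univ] at hsum
  have h1 : ∑ v : V, ((nb G Bad v).card : ℝ) ≤ Bad.card * (2 * ((p : ℝ) + 3) * a) := by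
    have h2 : ∑ v : V, ((nb G Bad v).card : ℝ) = ∑ w ∈ Bad, ((nb G univ w).card : ℝ) := by
      exact_mod_cast sum_nb G Bad
    rw [h2]
    have h3 : ∀ w ∈ Bad, ((nb G univ w).card : ℝ) ≤ 2 * ((p : ℝ) + 3) * a := by
      intro w _
      refine le_trans ?_ hΔ
      exact_mod_cast hG.deg w
    refine (sum_le_card_nsmul _ _ _ h3).trans ?_
    rw [nsmul_eq_mul]
  have h4 : ∑ v : V, (if v ∈ Bad then c / 2 * (a : ℝ) * M else 0) = Bad.card * (c / 2 * a * M) := by
    rw [sum_ite_mem, univ_inter, sum_const, nsmul_eq_mul]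
  rw [h4] at hsum
  have h5 : ε * M * ∑ v : V, ((nb G Bad v).card : ℝ) ≤ ε * M * (Bad.card * (2 * ((p : ℝ) + 3) * a)) :=
    mul_le_mul_of_nonneg_left h1 (by positivity)
  have h6 : ε * M * (Bad.card * (2 * ((p : ℝ) + 3) * a)) = Bad.card * (c / 4 * a * M) := by
    rw [hε]
    field_simp
    ring
  have h7 : (Bad.card : ℝ) * (c / 4 * a * M) ≤ Bad.card * (c / 2 * a * M) := by
    apply mul_le_mul_of_nonneg_left _ (Nat.cast_nonneg _)
    apply mul_le_mul_of_nonneg_right _ hM0
    apply mul_le_mul_of_nonneg_right _ (by positivity)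
    linarith
  rw [← hM]
  have h8 : (kc G univ (p + 4) : ℝ) * (((p : ℝ) + 4) * a + (p + 2)) =
      (((p : ℝ) + 4) * a + (p + 2)) * kc G univ (p + 4) := by ring
  rw [h8]
  have h9 : (a : ℝ) * M * (Fintype.card V) = Fintype.card V * (a * M) := by ring
  rw [h9]
  linarith

end Pool.KR
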