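import Pool.Agent.H7.KR.Loc
import Pool.Agent.H7.KR.Upt
import Pool.Agent.H7.KR.Final
import Pool.Agent.H14.KR.LCA
import Pool.Agent.H17.KR.ARW
import Pool.Agent.H17.KR.MEE
import Pool.Agent.H18.KR.YSM
import Pool.Agent.H23.KR.ZSM
import Pool.Agent.H26.KR.WKS
import Pool.Agent.H3.KR.GL2
import Pool.Agent.H34.KR.CDG
import Pool.Agent.H34.KR.EDG
import Pool.Agent.H36.KR.AMS
import Pool.Agent.H40.KR.KAP
import Pool.Agent.H44.KR.EDS
import Pool.Agent.H45.KR.BON
import Pool.Agent.H50.KR.BZE
import Pool.Agent.H52.KR.ASM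
import Pool.Agent.H54.KR.CLM
import Pool.Agent.H55.KR.NMS
import Pool.Agent.H64.KR.LCB
import Pool.Agent.H65.KR.NBR
import Pool.Agent.H67.KR.PTW
import Pool.Agent.H70.KR.COV
import Pool.Agent.H86.KR.STG
import Pool.Agent.H89.KR.BTW
import Pool.Agent.H89.KR.KLB

/-! # All rows of the board `kr` -/

set_option autoImplicit false

open Finset

namespace Pool.KR

open Pool.KQ

theorem lcq_all : LCQStmt := lcq (lca loc3_all) (lcb zsm bal_row)

theorem ptw_all : PTWStmt := ptw zsm

theorem edg_all : EDGStmt := edg ysm ptw_all lcq_all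

theorem eds_all : EDSStmt := eds ysm ptw_all lcq_all bal_row

theorem cov_all : COVStmt := cov ysm

theorem arw_all : ARWStmt := arw cov_all (nms brk) (asm edg_all cdg nbr) ams nbr

theorem bze_all : BZEStmt := bze edg_all cov_all cdg mee nbr

theorem bon_all : BONStmt := bon edg_all cov_all cdg mee kap nbr ysm

theorem stg_all : STGStmt := stg (nms brk) wks clm

theorem upt_all : UPTStmt :=
  upt ysm (gl2 ysm) pre3_all (rea (rpi brk)) arw_all bze_all bon_all
    (btw edg_all eds_all cov_all cdg mee kap (klb brk) nbr) stg_all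

end Pool.KR
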