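import Pool.Agent.H7.KQ.Stmts

/-!
# Board `kr`: the residue `ω - 2` (MP_fd41b2_co). General residues in the local inequality.

The statements `KZRStmt`, `PREStmt`, `LOCStmt` of `Pool/Agent/H7/KQ/Stmts.lean` with `r ≤ p + 3`.
-/

set_option autoImplicit false

open Finset

namespace Pool.KR

open Pool.Agent.H23.KT Pool.Agent.H46.KW Pool.KQ

/-- `KZRStmt` with `r ≤ p + 3`. -/
def KZR3Stmt : Prop :=
  ∀ p r : ℕ, r ≤ p + 3 → ∃ a₀ : ℕ, ∀ a ≥ a₀, ∀ {V : Type} [DecidableEq V] (G : SimpleGraph V)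
    (W : Finset V), CB G W (p + 3) → W.card ≤ (p + 3) * a + r →
    a * bal (p + 3) ((p + 3) * a + r) ≤ (a + r) * kc G W (p + 3) →
    ∃ L ∈ clq G W (p + 3), W.card ≤ ∑ z ∈ L, nz G W L z + 4 * (p + 3) ^ 2

/-- `PREStmt` with `r ≤ p + 3`. -/
def PRE3Stmt : Prop :=
  ∀ p r : ℕ, r ≤ p + 3 → ∃ C : ℝ, 0 < C ∧ ∀ e : ℝ, 0 < e → ∃ a₀ : ℕ, ∀ a ≥ a₀,
    ∀ {V : Type} [DecidableEq V] (G : SimpleGraph V) (W : Finset V), CB G W (p + 3) →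
    W.card ≤ (p + 3) * a + r →
    a * bal (p + 3) ((p + 3) * a + r) ≤ (a + r) * kc G W (p + 3) →
    ∃ A : Fin (p + 3) → Finset V, Par G A ∧ (∀ i, A i ⊆ W) ∧
      (∀ i, (1 - e) * a ≤ ((A i).card : ℝ) ∧ ((A i).card : ℝ) ≤ (1 + e) * a) ∧
      ((W \ un A).card : ℝ) ≤ C ∧ (tot G A : ℝ) ≤ C * a

/-- `LOCStmt` with `r ≤ p + 3`. -/
def LOC3Stmt : Prop :=
  ∀ p r : ℕ, r ≤ p + 3 → ∃ a₀ : ℕ, ∀ a ≥ a₀, ∀ {V : Type} [DecidableEq V] (G : SimpleGraph V)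
    (W : Finset V), CB G W (p + 3) → W.card ≤ (p + 3) * a + r →
    ∑ L ∈ clq G W (p + 3), min (r : ℝ)
      ((((p + 3) * a + r : ℕ) : ℝ) - W.card + sw G p W L) ≤
        a * ((bal (p + 3) ((p + 3) * a + r) : ℝ) - kc G W (p + 3))

end Pool.KR
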