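import Pool.Agent.H7.KR.Gen

set_option autoImplicit false

open Finset

namespace Pool.KR

open Pool.Agent.H23.KT Pool.Agent.H46.KW Pool.KQ

theorem kzr3 : KZR3Stmt := by
  intro p r hr
  refine ⟨1, fun a ha V _ G W hCB hW hk => ?_⟩
  by_contra hcon
  push Not at hcon
  have hbal : a ^ (p + 3) ≤ bal (p + 3) ((p + 3) * a + r) := by
    rw [← bal_mul_self (q := p + 3) (by omega) a]
    exact bal_mono (by omega) (by omega)
  set k := kc G W (p + 3) with hkdef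
  have hkpos : 0 < k := by
    rcases Nat.eq_zero_or_pos k with h0 | h0
    · exfalso
      rw [h0, mul_zero] at hk
      have h1 : 0 < a * bal (p + 3) ((p + 3) * a + r) :=
        Nat.mul_pos (by omega) (lt_of_lt_of_le (pow_pos (by omega) _) hbal)
      omega
    · exact h0
  have hne : (clq G W (p + 3)).Nonempty := by
    rw [← card_pos, ← kc_eq]
    exact hkpos
  obtain ⟨L0, hL0⟩ := hne
  have hbig : 4 * (p + 3) ^ 2 < W.card := by
    have := hcon L0 hL0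
    omega
  -- real quantities
  have hB : (0 : ℝ) < (p : ℝ) + 3 := by positivity
  have hA : (1 : ℝ) ≤ (a : ℝ) := by exact_mod_cast ha
  have hKpos : (0 : ℝ) < (k : ℝ) := by exact_mod_cast hkpos
  have hH : 4 * ((p : ℝ) + 3) ^ 2 < (W.card : ℝ) := by exact_mod_cast hbig
  have hHA : (W.card : ℝ) ≤ ((p : ℝ) + 3) * ((a : ℝ) + 1) := by
    have h1 : W.card ≤ (p + 3) * (a + 1) := by
      refine hW.trans ?_
      rw [mul_add]
      omega
    exact_mod_cast h1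
  -- Cauchy-Schwarz
  have hcs := facets_cs (G := G) W (p + 2)
  have hsum : ((∑ L ∈ clq G W (p + 2 + 1), ∑ z ∈ L, nz G W L z : ℕ) : ℝ) ≤
      (k : ℝ) * ((W.card : ℝ) - 4 * ((p : ℝ) + 3) ^ 2) := by
    push_cast
    have h1 : ∀ L ∈ clq G W (p + 2 + 1), (∑ z ∈ L, (nz G W L z : ℝ)) ≤
        (W.card : ℝ) - 4 * ((p : ℝ) + 3) ^ 2 := by
      intro L hL
      have h2 := hcon L hL
      have h3 : ((∑ z ∈ L, nz G W L z : ℕ) : ℝ) + 4 * ((p : ℝ) + 3) ^ 2 ≤ (W.card : ℝ) := by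
        exact_mod_cast h2.le
      push_cast at h3
      linarith
    refine (sum_le_card_nsmul _ _ _ h1).trans ?_
    rw [nsmul_eq_mul, ← kc_eq]
  have hcsR : (((p : ℝ) + 3) * (k : ℝ)) ^ 2 ≤ (kc G W (p + 2) : ℝ) *
      ((∑ L ∈ clq G W (p + 2 + 1), ∑ z ∈ L, nz G W L z : ℕ) : ℝ) := by
    have h1 : (((p + 2 + 1) * kc G W (p + 2 + 1)) ^ 2 : ℕ) ≤
      kc G W (p + 2) * ∑ L ∈ clq G W (p + 2 + 1), ∑ z ∈ L, nz G W L z := hcs
    have h2 : ((((p + 2 + 1) * kc G W (p + 2 + 1)) ^ 2 : ℕ) : ℝ) ≤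
      ((kc G W (p + 2) * ∑ L ∈ clq G W (p + 2 + 1), ∑ z ∈ L, nz G W L z : ℕ) : ℝ) := by
      exact_mod_cast h1
    rw [Nat.cast_mul (kc G W (p + 2))] at h2
    refine le_trans (le_of_eq ?_) h2
    push_cast
    have : ((p : ℝ) + 2 + 1) = (p : ℝ) + 3 := by ring
    rw [this]
  have hzyk := zyk_real' (G := G) (p + 2) W hCB
  have hzyk' : (kc G W (p + 2) : ℝ) ≤
      ((p : ℝ) + 3) * ((W.card : ℝ) / ((p : ℝ) + 3)) ^ (p + 2) := by
    have e : (((p + 2 : ℕ) : ℝ) + 1) = (p : ℝ) + 3 := by push_cast; ring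
    rw [e] at hzyk
    exact hzyk
  set y : ℝ := (W.card : ℝ) / ((p : ℝ) + 3) with hy
  have hyH : (W.card : ℝ) = ((p : ℝ) + 3) * y := by
    have e : y * ((p : ℝ) + 3) = (W.card : ℝ) := div_mul_cancel₀ _ hB.ne'
    linarith
  have hy1 : 4 * ((p : ℝ) + 3) < y := by
    rw [hy, lt_div_iff₀ hB]
    calc 4 * ((p : ℝ) + 3) * ((p : ℝ) + 3) = 4 * ((p : ℝ) + 3) ^ 2 := by ring
      _ < (W.card : ℝ) := hH
  have hy2 : y ≤ (a : ℝ) + 1 := by
    rw [hy, div_le_iff₀ hB]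
    calc (W.card : ℝ) ≤ ((p : ℝ) + 3) * ((a : ℝ) + 1) := hHA
      _ = ((a : ℝ) + 1) * ((p : ℝ) + 3) := by ring
  have hy0 : 0 < y := lt_trans (by positivity) hy1
  have hcsum : 0 ≤ (k : ℝ) * ((W.card : ℝ) - 4 * ((p : ℝ) + 3) ^ 2) :=
    mul_nonneg hKpos.le (by linarith)
  have h1 : (((p : ℝ) + 3) * (k : ℝ)) ^ 2 ≤
      ((p : ℝ) + 3) * y ^ (p + 2) * ((k : ℝ) * ((W.card : ℝ) - 4 * ((p : ℝ) + 3) ^ 2)) :=
    hcsR.trans (mul_le_mul hzyk' hsum (Nat.cast_nonneg _)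
      (mul_nonneg hB.le (pow_nonneg hy0.le _)))
  have h2 : (k : ℝ) ≤ y ^ (p + 2) * (y - 4 * ((p : ℝ) + 3)) := by
    rw [hyH] at h1
    have e : ((p : ℝ) + 3) * y ^ (p + 2) * ((k : ℝ) * (((p : ℝ) + 3) * y - 4 * ((p : ℝ) + 3) ^ 2)) =
        (((p : ℝ) + 3) ^ 2 * k) * (y ^ (p + 2) * (y - 4 * ((p : ℝ) + 3))) := by ring
    have e2 : (((p : ℝ) + 3) * (k : ℝ)) ^ 2 = (((p : ℝ) + 3) ^ 2 * k) * k := by ring
    rw [e, e2] at h1
    exact le_of_mul_le_mul_left h1 (by positivity)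
  have h3 : (k : ℝ) ≤ ((a : ℝ) + 1) ^ (p + 2) * ((a : ℝ) + 1 - 4 * ((p : ℝ) + 3)) := by
    refine h2.trans (mul_le_mul (pow_le_pow_left₀ hy0.le hy2 _) (by linarith) (by linarith)
      (by positivity))
  -- the lower bound
  have h4 : ((a : ℝ) + 1) ^ (p + 2) * ((a : ℝ) + 1 - ((p : ℝ) + 3)) ≤ (a : ℝ) ^ (p + 3) := by
    have hS : (0 : ℝ) < (a : ℝ) + 1 := by positivity
    have hb := one_add_mul_le_pow (a := -(1 / ((a : ℝ) + 1))) (by
      have : 1 / ((a : ℝ) + 1) ≤ 1 := by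
        rw [div_le_one hS]; linarith
      linarith) (p + 3)
    have e1 : (1 + -(1 / ((a : ℝ) + 1))) = (a : ℝ) / ((a : ℝ) + 1) := by field_simp; ring
    rw [e1, div_pow, le_div_iff₀ (by positivity)] at hb
    refine le_trans (le_of_eq ?_) hb
    push_cast
    field_simp
    ring
  have h5 : (a : ℝ) * (a : ℝ) ^ (p + 3) ≤ ((a : ℝ) + ((p : ℝ) + 3)) * k := by
    have h6 : a * a ^ (p + 3) ≤ (a + (p + 3)) * k :=
      (Nat.mul_le_mul_left _ hbal).trans (hk.trans (Nat.mul_le_mul_right _ (by omega)))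
    exact_mod_cast h6
  have hSp : (0 : ℝ) < ((a : ℝ) + 1) ^ (p + 2) := by positivity
  have h7 : (a : ℝ) * (((a : ℝ) + 1) ^ (p + 2) * ((a : ℝ) + 1 - ((p : ℝ) + 3))) ≤
      ((a : ℝ) + ((p : ℝ) + 3)) *
        (((a : ℝ) + 1) ^ (p + 2) * ((a : ℝ) + 1 - 4 * ((p : ℝ) + 3))) :=
    (mul_le_mul_of_nonneg_left h4 (by linarith)).trans
      (h5.trans (mul_le_mul_of_nonneg_left h3 (by positivity)))
  have h8 : ((a : ℝ) + 1) ^ (p + 2) * ((a : ℝ) * ((a : ℝ) + 1 - ((p : ℝ) + 3))) ≤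
      ((a : ℝ) + 1) ^ (p + 2) *
        (((a : ℝ) + ((p : ℝ) + 3)) * ((a : ℝ) + 1 - 4 * ((p : ℝ) + 3))) := by
    linarith
  have h9 := le_of_mul_le_mul_left h8 hSp
  nlinarith

end Pool.KR
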