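import Pool.Agent.H7.KQ.All
import Pool.Agent.H7.KR.KZR
import Pool.Agent.H7.KR.PRE

/-! # The local inequality, general residues: assembly -/

set_option autoImplicit false

open Finset

namespace Pool.KR

open Pool.Agent.H23.KT Pool.Agent.H46.KW Pool.KQ

/-- The claim for dense graphs. -/
theorem clm3 (hBAL : BALStmt) (hBPR : BPRStmt) (hPRE : PRE3Stmt) (hREA : REAStmt) (hBAS : BASStmt)
    (hEXC : EXCStmt) (hIND : INDStmt) (p r : ℕ) (hr : r ≤ p + 3) :
    ∃ a₀ : ℕ, ∀ a ≥ a₀, ∀ {V : Type} [DecidableEq V] (G : SimpleGraph V)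
    (W : Finset V), CB G W (p + 3) → W.card ≤ (p + 3) * a + r →
    a * bal (p + 3) ((p + 3) * a + r) ≤ (a + r) * kc G W (p + 3) →
    ∑ K ∈ clq G W (p + 3), min (r : ℝ) (sw G p W K) ≤
      a * ((bal (p + 3) W.card : ℝ) - kc G W (p + 3)) := by
  obtain ⟨C, hC, hP⟩ := hPRE p r hr
  obtain ⟨C', hC', hR⟩ := hREA p C hC
  obtain ⟨e₀, he₀, he₁, hE⟩ := hEXC p
  obtain ⟨a₁, h1⟩ := hP (e₀ / 2) (by positivity)
  obtain ⟨a₂, h2⟩ := hR e₀ he₀ (he₁.trans (e1_le p))
  obtain ⟨a₃, h3⟩ := hE r C'
  refine ⟨max (max a₁ a₂) (max a₃ 1), ?_⟩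
  intro a ha V _ G W hCB hW hd
  have ha1 : a₁ ≤ a := le_trans (le_trans (le_max_left _ _) (le_max_left _ _)) ha
  have ha2 : a₂ ≤ a := le_trans (le_trans (le_max_right _ _) (le_max_left _ _)) ha
  have ha3 : a₃ ≤ a := le_trans (le_trans (le_max_left _ _) (le_max_right _ _)) ha
  have ha4 : 1 ≤ a := le_trans (le_trans (le_max_right _ _) (le_max_right _ _)) ha
  obtain ⟨A, hA1, hA2, hA3, hA4, hA5⟩ := h1 a ha1 G W hCB hW hd
  obtain ⟨P, U, hS⟩ := h2 a ha2 G W A hCB hA1 hA2 hA3 hA4 hA5
  have hall : ∀ U' : Finset V, U' ⊆ U →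
      ∑ K ∈ clq G (un P ∪ U') (p + 3), min (r : ℝ) (sw G p (un P ∪ U') K) ≤
      a * ((bal (p + 3) (un P ∪ U').card : ℝ) - kc G (un P ∪ U') (p + 3)) := by
    intro U'
    induction U' using Finset.induction_on with
    | empty =>
      intro _
      rw [union_empty]
      have hb := hBAS G p a e₀ P he₀.le he₁ ha4 hS.par (fun i => ⟨hS.lo i, hS.hi i⟩) hS.mis
      have hprod : (∏ i, ((P i).card : ℝ)) ≤ (bal (p + 3) (un P).card : ℝ) := by
        have h4 := hBPR (p + 2) (fun i => (P i).card)
        have h5 : (un P).card = ∑ i, (P i).card := by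
          unfold un
          rw [card_biUnion]
          intro i _ j _ hij
          exact hS.par.dis i j hij
        rw [h5]
        exact_mod_cast h4
      calc ∑ K ∈ clq G (un P) (p + 3), min (r : ℝ) (sw G p (un P) K)
          ≤ ∑ K ∈ clq G (un P) (p + 3), sw G p (un P) K :=
            sum_le_sum fun K _ => min_le_right _ _
        _ ≤ a * ((∏ i, ((P i).card : ℝ)) - kc G (un P) (p + 3)) := hb
        _ ≤ _ := by
          apply mul_le_mul_of_nonneg_left _ (Nat.cast_nonneg a)
          linarith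
    | insert u U' hu ih =>
      intro hsub
      have hU' : U' ⊆ U := (subset_insert u U').trans hsub
      have huU : u ∈ U := hsub (mem_insert_self u U')
      have e : un P ∪ insert u U' = insert u (un P ∪ U') := by
        ext x
        simp only [mem_union, mem_insert]
        tauto
      have hun : u ∉ un P := by
        intro h
        unfold un at h
        rw [mem_biUnion] at h
        obtain ⟨i, _, hi⟩ := h
        exact (disjoint_left.1 (hS.disU i)) hi huU
      have hnot : u ∉ un P ∪ U' := by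
        rw [mem_union]
        rintro (h | h)
        · exact hun h
        · exact hu h
      rw [e]
      apply hIND G p r a (un P ∪ U') u hnot
      · have h6 : insert u (un P ∪ U') ⊆ W := by
          intro x hx
          rw [mem_insert, mem_union] at hx
          rw [hS.cov]
          rcases hx with rfl | hx | hx
          · exact Or.inl huU
          · right
            unfold un at hx
            rw [mem_biUnion] at hx
            obtain ⟨i, _, hi⟩ := hx
            exact ⟨i, hi⟩
          · exact Or.inl (hU' hx)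
        have h7 := card_le_card h6
        rw [card_insert_of_notMem hnot] at h7
        omega
      · exact h3 a ha3 G e₀ W P U hS he₀.le le_rfl hCB u huU U' hU' hu
      · exact ih hU'
  have hWe : un P ∪ U = W := by
    ext x
    rw [mem_union, hS.cov]
    unfold un
    rw [mem_biUnion]
    constructor
    · rintro (⟨i, _, hi⟩ | h)
      · exact Or.inr ⟨i, hi⟩
      · exact Or.inl h
    · rintro (h | ⟨i, hi⟩)
      · exact Or.inr h
      · exact Or.inl ⟨i, mem_univ i, hi⟩
  have := hall U (Subset.refl U)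
  rw [hWe] at this
  exact this

theorem loc3 (hBAL : BALStmt) (hBPR : BPRStmt) (hPRE : PRE3Stmt) (hREA : REAStmt) (hBAS : BASStmt)
    (hEXC : EXCStmt) (hIND : INDStmt) : LOC3Stmt := by
  intro p r hr
  obtain ⟨a₀, h⟩ := clm3 hBAL hBPR hPRE hREA hBAS hEXC hIND p r hr
  refine ⟨max a₀ 1, ?_⟩
  intro a ha V _ G W hCB hW
  have ha0 : a₀ ≤ a := le_trans (le_max_left _ _) ha
  have ha1 : 1 ≤ a := le_trans (le_max_right _ _) ha
  have hx : (0 : ℝ) ≤ (((p + 3) * a + r : ℕ) : ℝ) - W.card := by
    have : (W.card : ℝ) ≤ (((p + 3) * a + r : ℕ) : ℝ) := by exact_mod_cast hW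
    linarith
  have haR : (1 : ℝ) ≤ a := by exact_mod_cast ha1
  rcases Nat.lt_or_ge ((a + r) * kc G W (p + 3)) (a * bal (p + 3) ((p + 3) * a + r)) with hd | hd
  · have h1 : ∑ L ∈ clq G W (p + 3), min (r : ℝ)
        ((((p + 3) * a + r : ℕ) : ℝ) - W.card + sw G p W L) ≤ kc G W (p + 3) * r := by
      rw [kc_eq, ← nsmul_eq_mul]
      exact sum_le_card_nsmul _ _ _ fun L _ => min_le_left _ _
    have h2 : ((a : ℝ) + r) * kc G W (p + 3) ≤ a * bal (p + 3) ((p + 3) * a + r) := by
      exact_mod_cast hd.le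
    refine h1.trans ?_
    rw [mul_sub]
    linarith
  · have h1 := h a ha0 G W hCB hW hd
    have h2 := hBAL.2.1 (p + 3) a W.card ((p + 3) * a + r) (by omega) hW (by omega)
    have h3 : (kc G W (p + 3) : ℝ) ≤ bal (p + 3) W.card := by
      exact_mod_cast zyk (p + 2) W hCB
    have h4 : ∑ L ∈ clq G W (p + 3), min (r : ℝ)
        ((((p + 3) * a + r : ℕ) : ℝ) - W.card + sw G p W L) ≤
        ∑ L ∈ clq G W (p + 3), (((((p + 3) * a + r : ℕ) : ℝ) - W.card) +
          min (r : ℝ) (sw G p W L)) := by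
      apply sum_le_sum
      intro L _
      have hs := sw_nonneg G p W L
      rcases le_total (r : ℝ) (sw G p W L) with h5 | h5
      · rw [min_eq_left h5]
        exact (min_le_left _ _).trans (by linarith)
      · rw [min_eq_right h5]
        exact min_le_right _ _
    rw [sum_add_distrib, sum_const, nsmul_eq_mul, ← kc_eq] at h4
    have h5 : (kc G W (p + 3) : ℝ) * ((((p + 3) * a + r : ℕ) : ℝ) - W.card) ≤
        bal (p + 3) W.card * ((((p + 3) * a + r : ℕ) : ℝ) - W.card) :=
      mul_le_mul_of_nonneg_right h3 hx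
    have h6 : a * ((bal (p + 3) ((p + 3) * a + r) : ℝ) - kc G W (p + 3)) =
        a * ((bal (p + 3) ((p + 3) * a + r) : ℝ) - bal (p + 3) W.card) +
        a * ((bal (p + 3) W.card : ℝ) - kc G W (p + 3)) := by ring
    rw [h6]
    refine h4.trans (add_le_add ?_ h1)
    refine h5.trans ?_
    rw [mul_comm]
    exact h2


theorem pre3_all : PRE3Stmt := pre3 kzr3 prt amg trv_thm brk

theorem loc3_all : LOC3Stmt :=
  loc3 bal_row bpr pre3_all (rea (rpi brk)) (BAS trv_thm)
    (exc (csc csa (csb trv_thm brk) trv_thm) ext kbd (slk bal_row kbd)) (ind bal_row)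


end Pool.KR
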